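import Mathlib

open Set Filter Topology

namespace Pool.Agent.H.MP_a47312_mp

def Q {R : Type} [CommRing R] (y : R) : ℕ → R × R
  | 0 => (1, 4 - y)
  | k + 1 => ((Q y k).2, (2 * ((k : R) + 50) + 94 * (-1) ^ k - y) * (Q y k).2 -
      196 * ((k : R) + 1) * (Q y k).1)

noncomputable def P (y : ℝ) (k : ℕ) : ℝ := (Q y k).1

lemma P0 (y : ℝ) : P y 0 = 1 := rfl

lemma P1 (y : ℝ) : P y 1 = 4 - y := rfl

lemma P2 (y : ℝ) (k : ℕ) : P y (k + 2) =
    (2 * ((k : ℝ) + 50) + 94 * (-1) ^ k - y) * P y (k + 1) - 196 * ((k : ℝ) + 1) * P y k := rfl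

lemma Q_cast (y : ℤ) (k : ℕ) : P y k = ((Q y k).1 : ℤ) ∧ P y (k + 1) = ((Q y k).2 : ℤ) := by
  induction k with
  | zero => simp [P, Q]
  | succ k ih =>
    refine ⟨ih.2, ?_⟩
    rw [P2, ih.1, ih.2]
    simp [Q]

lemma cont (k : ℕ) : Continuous (fun y => P y k) ∧ Continuous fun y => P y (k + 1) := by
  induction k with
  | zero => exact ⟨continuous_const, continuous_const.sub continuous_id⟩
  | succ k ih =>
    refine ⟨ih.2, ?_⟩
    simp only [P2]
    exact ((continuous_const.sub continuous_id).mul ih.2).sub (continuous_const.mul ih.1)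

lemma coef {y : ℝ} (hy : y ≤ 4) (k : ℕ) :
    2 * ((k : ℝ) + 1) ≤ 2 * ((k : ℝ) + 50) + 94 * (-1) ^ k - y := by
  rcases neg_one_pow_eq_or ℝ k with h | h <;> rw [h] <;> linarith

lemma fwd {y σ : ℝ} (hy : y ≤ 4) (h0 : 0 < σ * P y 200) (h1 : 196 * (σ * P y 200) < σ * P y 201)
    (k : ℕ) (hk : 200 ≤ k) : 0 < σ * P y k ∧ 196 * (σ * P y k) < σ * P y (k + 1) := by
  induction k, hk using Nat.le_induction with
  | base => exact ⟨h0, h1⟩
  | succ k hk ih =>
    have h2 : 0 < σ * P y (k + 1) := by linarith [ih.1, ih.2]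
    refine ⟨h2, ?_⟩
    have h3 : (200 : ℝ) ≤ k := by exact_mod_cast hk
    have h4 := mul_le_mul_of_nonneg_right (coef hy k) h2.le
    have h5 := mul_lt_mul_of_pos_left ih.2 (show (0 : ℝ) < k + 1 by positivity)
    rw [P2]
    nlinarith

lemma bwd {y : ℝ} (hy : y ≤ 4) {k : ℕ} (hk : 200 ≤ k) (h : |P y (k + 2)| ≤ 196 * |P y (k + 1)|) :
    |P y (k + 1)| ≤ 196 * |P y k| := by
  have h3 : (200 : ℝ) ≤ k := by exact_mod_cast hk
  have h4 := coef hy k
  have h5 : (2 * ((k : ℝ) + 50) + 94 * (-1) ^ k - y) * P y (k + 1) =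
      P y (k + 2) + 196 * ((k : ℝ) + 1) * P y k := by rw [P2]; ring
  have h6 := congrArg abs h5
  rw [abs_mul, abs_of_nonneg (by linarith)] at h6
  have h7 := abs_add_le (P y (k + 2)) (196 * ((k : ℝ) + 1) * P y k)
  rw [abs_mul, abs_of_nonneg (show (0 : ℝ) ≤ 196 * (k + 1) by positivity)] at h7
  have h8 := mul_le_mul_of_nonneg_right h4 (abs_nonneg (P y (k + 1)))
  refine le_of_mul_le_mul_left ?_ (show (0 : ℝ) < k + 1 by positivity)
  nlinarith [abs_nonneg (P y (k + 1))]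

lemma shoot {a b σ : ℝ} (hab : a ≤ b) (hb : b ≤ 4) (a0 : 0 < σ * P a 200)
    (a1 : 196 * (σ * P a 200) < σ * P a 201) (b0 : 0 < -σ * P b 200)
    (b1 : 196 * (-σ * P b 200) < -σ * P b 201) :
    ∃ y ∈ Ioo a b, ∀ j, 200 ≤ j → |P y (j + 1)| ≤ 196 * |P y j| := by
  let K : ℕ → Set ℝ := fun i => Icc a b ∩ {y | |P y (200 + i + 1)| ≤ 196 * |P y (200 + i)|}
  have hc : ∀ i, IsClosed (K i) := fun i => isClosed_Icc.inter
    (isClosed_le (cont _).2.abs (continuous_const.mul (cont _).1.abs))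
  obtain ⟨y, hy⟩ := IsCompact.nonempty_iInter_of_sequence_nonempty_isCompact_isClosed K
    (fun i y hy => ⟨hy.1, bwd (hy.1.2.trans hb) (by omega) hy.2⟩) (fun i => by
      have h1 := (fwd (hab.trans hb) a0 a1 (200 + i + 1) (by omega)).1
      have h2 := (fwd hb b0 b1 (200 + i + 1) (by omega)).1
      obtain ⟨y, hy, hy'⟩ := intermediate_value_Icc' hab
        (f := fun y => σ * P y (200 + i + 1)) (continuous_const.mul (cont _).2).continuousOn
        (show (0 : ℝ) ∈ Icc _ _ from ⟨by linarith, h1.le⟩)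
      have hσ : σ ≠ 0 := by rintro rfl; simp at a0
      refine ⟨y, hy, ?_⟩
      rw [mem_ofPred_eq, (mul_eq_zero.1 hy').resolve_left hσ, abs_zero]
      positivity) (isCompact_Icc.of_isClosed_subset (hc 0) inter_subset_left) hc
  rw [mem_iInter] at hy
  have key : ∀ (τ c : ℝ), 0 < τ * P c 200 → 196 * (τ * P c 200) < τ * P c 201 → y ≠ c := by
    rintro τ c h1 h2 rfl
    have h3 : |P y 201| ≤ 196 * |P y 200| := (hy 0).2
    have h4 := mul_le_mul_of_nonneg_left h3 (abs_nonneg τ)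
    rw [← abs_mul, mul_left_comm, ← abs_mul, abs_of_pos h1] at h4
    linarith [le_abs_self (τ * P y 201)]
  refine ⟨y, ⟨lt_of_le_of_ne (hy 0).1.1 (key _ _ a0 a1).symm,
    lt_of_le_of_ne (hy 0).1.2 (key _ _ b0 b1)⟩, fun j hj => ?_⟩
  obtain ⟨i, rfl⟩ := Nat.exists_eq_add_of_le hj
  exact (hy i).2

noncomputable def w : ℕ → ℝ
  | 0 => 1
  | k + 1 => w k / (14 * √((k : ℝ) + 1))

lemma eig {y : ℝ} (h : ∀ j, 200 ≤ j → |P y (j + 1)| ≤ 196 * |P y j|) :
    ∃ u : ℕ → ℝ, u ≠ 0 ∧ Summable (fun k => u k ^ 2) ∧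
      ∀ k : ℕ, ((k : ℝ) + -1 * (-1 : ℝ) ^ k * 47) * u k
        + 7 * (Real.sqrt (k : ℝ) * u (k - 1) + Real.sqrt ((k : ℝ) + 1) * u (k + 1))
        = (y / 2 - 49) * u k := by
  refine ⟨fun k => (-1) ^ k * P y k * w k, fun h0 => ?_, ?_, fun k => ?_⟩
  · simpa [P0, w] using congrFun h0 0
  · refine summable_of_ratio_norm_eventually_le (r := 1 / 2) (by norm_num) ?_
    filter_upwards [eventually_ge_atTop 400] with k hk
    have h1 := pow_le_pow_left₀ (abs_nonneg _) (h k (by omega)) 2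
    have h2 : (400 : ℝ) ≤ k := by exact_mod_cast hk
    rw [mul_pow, sq_abs, sq_abs] at h1
    rw [Real.norm_of_nonneg (sq_nonneg _), Real.norm_of_nonneg (sq_nonneg _)]
    have e : ∀ n : ℕ, ((-1 : ℝ) ^ n) ^ 2 = 1 := fun n => by rw [← pow_mul, mul_comm, pow_mul]; simp
    simp only [mul_pow, e, one_mul, w, div_pow]
    rw [Real.sq_sqrt (by positivity), mul_div_assoc', div_le_iff₀ (by positivity)]
    nlinarith [mul_le_mul_of_nonneg_right h1 (sq_nonneg (w k)),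
      mul_nonneg (sq_nonneg (P y k)) (sq_nonneg (w k))]
  · rcases k with _ | k
    · simp [P0, P1, w]
      ring
    · have h1 : 0 < √((k : ℝ) + 1) := Real.sqrt_pos.2 (by positivity)
      have h2 : 0 < √((k : ℝ) + 1 + 1) := Real.sqrt_pos.2 (by positivity)
      have h3 : (k : ℝ) = √((k : ℝ) + 1) ^ 2 - 1 := by rw [Real.sq_sqrt (by positivity)]; ring
      simp only [Nat.add_sub_cancel, P2, w, pow_succ]
      push_cast
      generalize √((k : ℝ) + 1 + 1) = t at h2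
      generalize √((k : ℝ) + 1) = s at h1 h3
      rw [h3]
      field_simp
      ring

lemma calc0 : ∀ y ∈ [(1 : ℤ), 3], 0 < -(Q y 200).1 ∧ 196 * -(Q y 200).1 < -(Q y 200).2 := by
  decide +kernel

lemma calc1 : ∀ y ∈ [(0 : ℤ), 2, 4], 0 < (Q y 200).1 ∧ 196 * (Q y 200).1 < (Q y 200).2 := by
  decide +kernel

lemma pos {y : ℤ} (hy : y ∈ [(0 : ℤ), 2, 4]) :
    0 < 1 * P y 200 ∧ 196 * (1 * P y 200) < 1 * P y 201 := by
  rw [(Q_cast y 200).1, (Q_cast y 200).2, one_mul, one_mul]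
  exact_mod_cast calc1 y hy

lemma neg {y : ℤ} (hy : y ∈ [(1 : ℤ), 3]) :
    0 < -1 * P y 200 ∧ 196 * (-1 * P y 200) < -1 * P y 201 := by
  rw [(Q_cast y 200).1, (Q_cast y 200).2, neg_one_mul, neg_one_mul]
  exact_mod_cast calc0 y hy

lemma four : ∀ i : ℕ, i < 4 → ∃ y ∈ Ioo (i : ℝ) (i + 1),
    ∀ j, 200 ≤ j → |P y (j + 1)| ≤ 196 * |P y j| := by
  have h0 := pos (y := 0) (by simp)
  have h1 := neg (y := 1) (by simp)
  have h2 := pos (y := 2) (by simp)
  have h3 := neg (y := 3) (by simp)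
  have h4 := pos (y := 4) (by simp)
  push_cast at h0 h1 h2 h3 h4
  intro i hi
  interval_cases i
  · simpa using shoot (σ := 1) (by norm_num) (by norm_num) h0.1 h0.2 h1.1 h1.2
  · simpa [show (1 : ℝ) + 1 = 2 by norm_num] using shoot (σ := -1) (by norm_num) (by norm_num)
      h1.1 h1.2 (by simpa using h2.1) (by simpa using h2.2)
  · simpa [show (2 : ℝ) + 1 = 3 by norm_num] using shoot (σ := 1) (by norm_num) (by norm_num)
      h2.1 h2.2 h3.1 h3.2
  · simpa [show (3 : ℝ) + 1 = 4 by norm_num] using shoot (σ := -1) (by norm_num) (by norm_num)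
      h3.1 h3.2 (by simpa using h4.1) (by simpa using h4.2)

end Pool.Agent.H.MP_a47312_mp
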